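import Pool.Agent.W819.EN.Stm

/-! Project EN: independent blocks. -/

set_option autoImplicit false

namespace Pool.Agent.W240.EN

open H974 Finset
open Pool.Agent.W819.EN

theorem okh : Ok P2 := fun _ => ⟨by norm_num, by norm_num⟩

/-- independence of finitely many events with disjoint supports -/
theorem pr_all {E : Type*} [DecidableEq E] {ι : Type*} (p : E → ℝ) (U : Finset E)
    (T : ι → Finset E) (B : ι → Finset E → Prop) (I : Finset ι)
    (hT : ∀ i ∈ I, T i ⊆ U) (hd : ∀ i ∈ I, ∀ j ∈ I, i ≠ j → Disjoint (T i) (T j))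
    (hB : ∀ i ∈ I, ∀ F, F ⊆ U → (B i F ↔ B i (F ∩ T i))) :
    Pr p U (fun F => ∀ i ∈ I, B i F) = ∏ i ∈ I, Pr p U (B i) := by
  classical
  induction I using Finset.induction_on with
  | empty =>
    rw [Finset.prod_empty]
    exact Pr_true U fun F _ i hi => absurd hi (Finset.notMem_empty i)
  | insert j I hj ih =>
    rw [Finset.prod_insert hj, ← ih (fun i hi => hT i (Finset.mem_insert_of_mem hi))
      (fun i hi k hk => hd i (Finset.mem_insert_of_mem hi) k (Finset.mem_insert_of_mem hk))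
      (fun i hi => hB i (Finset.mem_insert_of_mem hi))]
    rw [← Pr_indep (S := T j) (T := I.biUnion T) (hT j (Finset.mem_insert_self j I))]
    · exact Pr_congr fun F _ => Finset.forall_mem_insert _ _ _
    · exact Finset.biUnion_subset.2 fun i hi => hT i (Finset.mem_insert_of_mem hi)
    · rw [Finset.disjoint_biUnion_right]
      intro i hi
      exact hd j (Finset.mem_insert_self j I) i (Finset.mem_insert_of_mem hi)
        (fun h => hj (h ▸ hi))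
    · exact hB j (Finset.mem_insert_self j I)
    · intro F hF
      refine forall₂_congr fun i hi => ?_
      rw [hB i (Finset.mem_insert_of_mem hi) F hF,
        hB i (Finset.mem_insert_of_mem hi) (F ∩ I.biUnion T) (Finset.inter_subset_left.trans hF)]
      rw [Finset.inter_assoc, Finset.inter_eq_right.2 (Finset.subset_biUnion_of_mem T hi)]

theorem mem_bx (v : Vtx) (k : ℤ) (e : Edg) : e ∈ bx v k ↔
    (v.1 - k ≤ e.1 ∧ e.1 ≤ v.1 + k) ∧ (v.2 - k ≤ e.2.1 ∧ e.2.1 ≤ v.2 + k) ∧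
      (if e.2.2 then e.1 < v.1 + k else e.2.1 < v.2 + k) := by
  unfold bx RE
  simp only [Finset.mem_filter, Finset.mem_product, Finset.mem_Icc, Finset.mem_univ, and_true]
  tauto

theorem bx_mono (v w : Vtx) (k l : ℤ) (h1 : w.1 - l ≤ v.1 - k) (h2 : v.1 + k ≤ w.1 + l)
    (h3 : w.2 - l ≤ v.2 - k) (h4 : v.2 + k ≤ w.2 + l) : bx v k ⊆ bx w l := by
  intro e he
  rw [mem_bx] at he ⊢
  refine ⟨⟨by omega, by omega⟩, ⟨by omega, by omega⟩, ?_⟩
  split_ifs at he ⊢ with h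
  · have := he.2.2
    omega
  · have := he.2.2
    omega

theorem bx_tr (c : Vtx) (k : ℤ) : bx c k = (trl c.1 c.2).mp (bx (0, 0) k) := by
  ext ⟨x, y, b⟩
  rw [LSym.mem_mp, trl_φs, mem_bx, mem_bx]
  simp only
  cases b
  · simp only [Bool.false_eq_true, if_false]
    omega
  · simp only [if_true]
    omega

/-- translation of vertices -/
def tv (c : Vtx) : Vtx ↪ Vtx :=
  ⟨fun v => (v.1 + c.1, v.2 + c.2), fun v w h => by
    have h1 := congrArg Prod.fst h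
    have h2 := congrArg Prod.snd h
    simp only at h1 h2
    exact Prod.ext (by omega) (by omega)⟩

section

variable {N : Finset Edg → Vtx → ℕ → ℕ → ℕ}

theorem gd_tr (hG : Geo N) (b J : ℕ) (Q : ℕ → Set ℕ) (c w : Vtx) (F : Finset Edg) :
    Gd N b J Q (tv c w) ((trl c.1 c.2).mp F) ↔ Gd N b J Q w F := by
  unfold Gd
  refine forall₂_congr fun j _ => ?_
  have := hG.tr F c w (rj b j) (Rj b j)
  rw [← this]
  exact Iff.rfl

theorem cnt_tr (hG : Geo N) (b J : ℕ) (Q : ℕ → Set ℕ) (c : Vtx) (V : Finset Vtx)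
    (F : Finset Edg) :
    cnt N b J Q (V.map (tv c)) ((trl c.1 c.2).mp F) = cnt N b J Q V F := by
  classical
  unfold cnt
  rw [Finset.filter_map, Finset.card_map]
  congr 1
  refine Finset.filter_congr fun w _ => ?_
  exact gd_tr hG b J Q c w F

theorem cnt_mono (b J : ℕ) (Q : ℕ → Set ℕ) {V W : Finset Vtx} (h : V ⊆ W) (F : Finset Edg) :
    cnt N b J Q V F ≤ cnt N b J Q W F := by
  classical
  unfold cnt
  exact Finset.card_le_card (Finset.filter_subset_filter _ h)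

theorem rj_le {b : ℕ} (hb : 2 ≤ b) (j : ℕ) : rj b j ≤ Rj b j := by
  unfold rj Rj
  split_ifs with h
  · exact Nat.zero_le _
  · rw [pow_succ]
    nlinarith [Nat.zero_le (b ^ j)]

theorem Rj_le {b : ℕ} (hb : 2 ≤ b) {j J : ℕ} (hj : j < J) : Rj b j ≤ 2 * b ^ J := by
  unfold Rj
  exact Nat.mul_le_mul_left 2 (Nat.pow_le_pow_right (by omega) hj)

theorem cnt_loc (hG : Geo N) {b : ℕ} (hb : 2 ≤ b) (J : ℕ) (Q : ℕ → Set ℕ) (c : Vtx)
    (F : Finset Edg) :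
    cnt N b J Q ((blk b J).map (tv c)) F =
      cnt N b J Q ((blk b J).map (tv c)) (F ∩ bx c (3 * (b : ℤ) ^ J)) := by
  classical
  unfold cnt
  congr 1
  refine Finset.filter_congr fun v hv => ?_
  obtain ⟨w, hw, rfl⟩ := Finset.mem_map.1 hv
  unfold Gd
  refine forall₂_congr fun j hj => ?_
  have h1 : an (tv c w) (rj b j) (Rj b j) ⊆ bx c (3 * (b : ℤ) ^ J) := by
    unfold blk at hw
    rw [Finset.mem_product, Finset.mem_Ico, Finset.mem_Ico] at hw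
    have h2 : ((Rj b j : ℕ) : ℤ) ≤ 2 * (b : ℤ) ^ J := by exact_mod_cast Rj_le hb hj
    have e1 : (tv c w).1 = w.1 + c.1 := rfl
    have e2 : (tv c w).2 = w.2 + c.2 := rfl
    unfold an
    refine Finset.sdiff_subset.trans (bx_mono _ _ _ _ ?_ ?_ ?_ ?_)
    · rw [e1]
      linarith [hw.1.1, hw.1.2]
    · rw [e1]
      linarith [hw.1.1, hw.1.2]
    · rw [e2]
      linarith [hw.2.1, hw.2.2]
    · rw [e2]
      linarith [hw.2.1, hw.2.2]
  rw [hG.loc F _ _ _ (rj_le hb j), hG.loc (F ∩ bx c (3 * (b : ℤ) ^ J)) _ _ _ (rj_le hb j),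
    Finset.inter_assoc, Finset.inter_eq_right.2 h1]

theorem pr_block (hG : Geo N) {b : ℕ} (hb : 2 ≤ b) (J : ℕ) (Q : ℕ → Set ℕ) (c : Vtx)
    (S : Finset Edg) (hS : bx c (3 * (b : ℤ) ^ J) ⊆ S) (x q : ℝ)
    (h : q ≤ Pr P2 (bx (0, 0) (3 * (b : ℤ) ^ J)) (fun F => x ≤ (cnt N b J Q (blk b J) F : ℝ))) :
    q ≤ Pr P2 S (fun F => x ≤ (cnt N b J Q ((blk b J).map (tv c)) F : ℝ)) := by
  rw [Pr_local hS (fun F _ => by rw [cnt_loc hG hb J Q c F])]
  have h1 := bx_tr c (3 * (b : ℤ) ^ J)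
  rw [h1]
  have h2 := LSym.pr (trl c.1 c.2) (1 / 2) (bx (0, 0) (3 * (b : ℤ) ^ J))
    (fun F => x ≤ (cnt N b J Q ((blk b J).map (tv c)) F : ℝ))
  refine h.trans (le_of_eq ?_)
  refine Eq.trans ?_ h2.symm
  refine Pr_congr fun F _ => ?_
  rw [cnt_tr hG]

/-- the indices of the centres -/
noncomputable def Ix (k : ℤ) : Finset (ℤ × ℤ) := Finset.Icc (-k) k ×ˢ Finset.Icc (-k) k

theorem card_Ix (k : ℕ) : (Ix (k : ℤ)).card = (2 * k + 1) ^ 2 := by
  unfold Ix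
  rw [Finset.card_product, Int.card_Icc, sq]
  have : ((k : ℤ) + 1 - -(k : ℤ)).toNat = 2 * k + 1 := by omega
  rw [this]

/-- the centre -/
def ct (M : ℤ) (i : ℤ × ℤ) : Vtx := (8 * M * i.1, 8 * M * i.2)

theorem t_SEC2 (hG : Geo N) (hB : Blk N) : Sec N := by
  intro J hJ g hg0 hg2
  obtain ⟨b0, hb0⟩ := hB J hJ g hg0 hg2
  refine ⟨max b0 8, fun b hb Q hQ S hS => ?_⟩
  have hb1 : b0 ≤ b := (le_max_left _ _).trans hb
  have hb8 : 8 ≤ b := (le_max_right _ _).trans hb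
  have hb2 : 2 ≤ b := by omega
  have hblk := hb0 b hb1 Q hQ
  set x : ℝ := (b : ℝ) ^ ((2 - g) * J) / 2 with hx
  set M : ℤ := (b : ℤ) ^ J with hM
  have hM1 : 1 ≤ M := by
    rw [hM]
    exact_mod_cast Nat.one_le_pow _ _ (by omega)
  set k : ℕ := (b ^ 5 - 1) / 8 with hk
  have hb5 : 8 ≤ b ^ 5 := by
    calc 8 ≤ b := hb8
      _ = b ^ 1 := (pow_one b).symm
      _ ≤ b ^ 5 := Nat.pow_le_pow_right (by omega) (by omega)
  have hk8 : 8 * k + 1 ≤ b ^ 5 := by omega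
  have hk8' : b ^ 5 ≤ 8 * k + 8 := by omega
  have hk8z : 8 * (k : ℤ) + 1 ≤ (b : ℤ) ^ 5 := by exact_mod_cast hk8
  have hbig : (b : ℤ) ^ (J + 5) = M * (b : ℤ) ^ 5 := by rw [hM, pow_add]
  -- bounds for the centres
  have hct : ∀ i ∈ Ix (k : ℤ), (-(M * ((b : ℤ) ^ 5 - 1)) ≤ (ct M i).1 ∧
      (ct M i).1 ≤ M * ((b : ℤ) ^ 5 - 1)) ∧ (-(M * ((b : ℤ) ^ 5 - 1)) ≤ (ct M i).2 ∧
      (ct M i).2 ≤ M * ((b : ℤ) ^ 5 - 1)) := by
    intro i hi
    unfold Ix at hi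
    rw [Finset.mem_product, Finset.mem_Icc, Finset.mem_Icc] at hi
    obtain ⟨⟨h1, h2⟩, h3, h4⟩ := hi
    unfold ct
    simp only
    refine ⟨⟨?_, ?_⟩, ?_, ?_⟩ <;> nlinarith
  have hsub : ∀ i ∈ Ix (k : ℤ), bx (ct M i) (3 * (b : ℤ) ^ J) ⊆ S := by
    intro i hi
    refine (bx_mono _ _ _ _ ?_ ?_ ?_ ?_).trans hS
    all_goals
      obtain ⟨⟨h1, h2⟩, h3, h4⟩ := hct i hi
      rw [hbig, ← hM]
      simp only
      have : (8 : ℤ) ≤ (b : ℤ) ^ 5 := by exact_mod_cast hb5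
      nlinarith
  have hS0 : bx (0, 0) (3 * (b : ℤ) ^ J) ⊆ S := by
    refine (bx_mono _ _ _ _ ?_ ?_ ?_ ?_).trans hS
    all_goals
      rw [hbig, ← hM]
      simp only
      have : (8 : ℤ) ≤ (b : ℤ) ^ 5 := by exact_mod_cast hb5
      nlinarith
  have hdis : ∀ i ∈ Ix (k : ℤ), ∀ j ∈ Ix (k : ℤ), i ≠ j →
      Disjoint (bx (ct M i) (3 * (b : ℤ) ^ J)) (bx (ct M j) (3 * (b : ℤ) ^ J)) := by
    intro i _ j _ hij
    rw [Finset.disjoint_left]
    intro e he he'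
    rw [mem_bx] at he he'
    obtain ⟨⟨a1, a2⟩, ⟨a3, a4⟩, _⟩ := he
    obtain ⟨⟨c1, c2⟩, ⟨c3, c4⟩, _⟩ := he'
    rw [← hM] at a1 a2 a3 a4 c1 c2 c3 c4
    unfold ct at a1 a2 a3 a4 c1 c2 c3 c4
    simp only at a1 a2 a3 a4 c1 c2 c3 c4
    apply hij
    have key : ∀ s t : ℤ, 8 * M * s - 8 * M * t ≤ 6 * M → 8 * M * t - 8 * M * s ≤ 6 * M →
        s = t := by
      intro s t h1 h2
      by_contra hne
      rcases lt_or_gt_of_ne hne with h | h
      · have : s + 1 ≤ t := h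
        nlinarith
      · have : t + 1 ≤ s := h
        nlinarith
    exact Prod.ext (key _ _ (by linarith) (by linarith)) (key _ _ (by linarith) (by linarith))
  set A : ℤ × ℤ → Finset Edg → Prop := fun i F =>
    x ≤ (cnt N b J Q ((blk b J).map (tv (ct M i))) F : ℝ) with hA
  have hprA : ∀ i ∈ Ix (k : ℤ), (b : ℝ) ^ (-7 : ℝ) ≤ Pr P2 S (A i) := fun i hi =>
    pr_block hG hb2 J Q (ct M i) S (hsub i hi) x _ (hblk _ (Finset.Subset.refl _))
  have hvb : ∀ i ∈ Ix (k : ℤ), (blk b J).map (tv (ct M i)) ⊆ vb (b ^ (J + 5)) := by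
    intro i hi v hv
    obtain ⟨w, hw, rfl⟩ := Finset.mem_map.1 hv
    unfold blk at hw
    rw [Finset.mem_product, Finset.mem_Ico, Finset.mem_Ico, ← hM] at hw
    obtain ⟨⟨h1, h2⟩, h3, h4⟩ := hct i hi
    obtain ⟨⟨w1, w2⟩, w3, w4⟩ := hw
    unfold vb
    rw [Finset.mem_product, Finset.mem_Icc, Finset.mem_Icc]
    push_cast
    rw [hbig]
    have e1 : (tv (ct M i) w).1 = w.1 + (ct M i).1 := rfl
    have e2 : (tv (ct M i) w).2 = w.2 + (ct M i).2 := rfl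
    rw [e1, e2]
    refine ⟨⟨?_, ?_⟩, ?_, ?_⟩ <;> nlinarith
  have hx7 : (b : ℝ) ^ (-7 : ℝ) = ((b : ℝ) ^ 7)⁻¹ := by
    rw [Real.rpow_neg (Nat.cast_nonneg b)]
    norm_num
  have hbR : (8 : ℝ) ≤ b := by exact_mod_cast hb8
  have hq0 : 0 ≤ (b : ℝ) ^ (-7 : ℝ) := by positivity
  calc Pr P2 S (fun F => (cnt N b J Q (vb (b ^ (J + 5))) F : ℝ) < x)
      ≤ Pr P2 S (fun F => ∀ i ∈ Ix (k : ℤ), ¬ A i F) := by
        refine Pr_mono okh fun F _ h i hi hAi => ?_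
        have h1 : (cnt N b J Q ((blk b J).map (tv (ct M i))) F : ℝ) ≤
            (cnt N b J Q (vb (b ^ (J + 5))) F : ℝ) := by
          exact_mod_cast cnt_mono b J Q (hvb i hi) F
        have h2 : x ≤ (cnt N b J Q ((blk b J).map (tv (ct M i))) F : ℝ) := hAi
        linarith
    _ = ∏ i ∈ Ix (k : ℤ), Pr P2 S (fun F => ¬ A i F) := by
        refine pr_all P2 S (fun i => bx (ct M i) (3 * (b : ℤ) ^ J)) (fun i F => ¬ A i F)
          (Ix (k : ℤ)) hsub hdis ?_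
        intro i _ F _
        simp only [hA]
        rw [← cnt_loc hG hb2 J Q (ct M i) F]
    _ ≤ ∏ i ∈ Ix (k : ℤ), Real.exp (-(b : ℝ) ^ (-7 : ℝ)) := by
        refine Finset.prod_le_prod (fun i _ => Pr_nonneg okh _ _) fun i hi => ?_
        rw [Pr_not]
        have h1 := Real.add_one_le_exp (-(b : ℝ) ^ (-7 : ℝ))
        have h2 := hprA i hi
        linarith
    _ = Real.exp (-(b : ℝ) ^ (-7 : ℝ) * ((2 * k + 1) ^ 2 : ℕ)) := by
        rw [Finset.prod_const, card_Ix, ← Real.exp_nat_mul, mul_comm]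
    _ ≤ Real.exp (-b) := by
        refine Real.exp_le_exp.2 ?_
        rw [hx7]
        have h1 : (b : ℝ) ^ 5 ≤ 8 * (2 * k + 1) := by
          have h2 : b ^ 5 ≤ 8 * (2 * k + 1) := by omega
          exact_mod_cast h2
        have h3 : ((b : ℝ) ^ 5) ^ 2 ≤ 64 * (2 * k + 1) ^ 2 := by
          have h4 : (0 : ℝ) ≤ (b : ℝ) ^ 5 := by positivity
          calc ((b : ℝ) ^ 5) ^ 2 ≤ (8 * (2 * k + 1)) ^ 2 := pow_le_pow_left₀ h4 h1 2
            _ = 64 * (2 * k + 1) ^ 2 := by ring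
        have h7 : (0 : ℝ) < (b : ℝ) ^ 7 := by positivity
        rw [neg_mul, neg_le_neg_iff, inv_mul_eq_div, le_div_iff₀ h7]
        push_cast
        have h8 : (b : ℝ) * (b : ℝ) ^ 7 * 64 ≤ ((b : ℝ) ^ 5) ^ 2 := by
          have h9 : (64 : ℝ) ≤ (b : ℝ) ^ 2 := by nlinarith
          calc (b : ℝ) * (b : ℝ) ^ 7 * 64 ≤ (b : ℝ) * (b : ℝ) ^ 7 * (b : ℝ) ^ 2 := by gcongr
            _ = ((b : ℝ) ^ 5) ^ 2 := by ring
        linarith

end

end Pool.Agent.W240.EN
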